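import Mathlib
import Pool.Agent.Helper18.EW.Goals2
import Pool.Agent.Helper62.Hw.H9

/-! Project EW, packet Z9: few pending skips of the zone. -/

set_option autoImplicit false

namespace Pool.Agent.Helper33.EW

open Finset
open Pool.Agent.Helper18.EW
open Pool.Agent.Helper43.Hw (T na va lz Play aa ac sc oo sk U Dd Sd Pn nx bb np)
open Pool.Agent.Helper43.Hw.PkH9 (harm κ_mono)

section

variable {μ R N K b l β s y : ℕ} {W : ℤ} {L o k D S n κ x : ℕ → ℕ}

theorem U_step (h4 : Pool.Agent.Helper43.Hw.GoalH4) (hμ : 1 ≤ μ) (hR : μ + 2 ≤ R)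
    (hX : Ext μ R N K b β s W L o k D S n) (hP : Play μ R N κ x)
    (hE : Ex μ R N L κ x y) {t : ℕ} (ht : t < y) (hs : s ≤ t) (hκ : κ (t + 1) = κ t)
    (hx : 0 < x t) : 0 < x (t + 1) ∧
      U μ R x (t + 1) + (N - κ t) =
        U μ R x t + (β + o t + k t) + oo μ R κ x t + sk μ κ x t := by
  have hyR := hE.1
  have hJ := hX.Js
  have hκt : κ t < N := lt_of_le_of_lt (κ_mono hP ht.le hyR) hE.2.1
  have h := (h4 μ R N κ x hμ hR hP t (by omega)).1 hκt (by rw [hκ]; exact hκt)
  have hna : na μ R (t + 1) = na μ R t + 1 := by unfold na; omega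
  rw [hE.2.2 (t + 1) (by omega), hE.2.2 t (by omega), hκ, Nat.sub_self, zero_mul, hna, mul_add,
    mul_one, hX.inc t hs (by omega)] at h
  have hinc := hP.inc t (by omega) hx hκ
  have hn1 := hP.nat t (by omega) hκt
  refine ⟨by omega, ?_⟩
  generalize (N - 1 - κ t) * na μ R t = A at h
  unfold na at hn1
  unfold U
  omega

theorem growth (h4 : Pool.Agent.Helper43.Hw.GoalH4) (hμ : 1 ≤ μ) (hR : μ + 2 ≤ R)
    (hX : Ext μ R N K b β s W L o k D S n) (hP : Play μ R N κ x)
    (hE : Ex μ R N L κ x y)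
    (hih : ∀ z, s ≤ z → z < y →
      b * l + (R - 1 - z) + 2 ^ 14 * l * (N - κ z) ≤ 2 ^ 14 * l * (β + o z + oo μ R κ x z))
    {t1 t2 : ℕ} (ht2 : t2 ≤ y) (hJ : s ≤ t1) (hκ : κ t2 = κ t1)
    (hx : 0 < x t1) : ∀ t, t1 ≤ t → t ≤ t2 →
      0 < x t ∧ (t - t1) * (b * l + (R - 1 - t2)) + 2 ^ 14 * l * U μ R x t1 ≤
        2 ^ 14 * l * U μ R x t := by
  intro t ht
  have hyR := hE.1
  induction t, ht using Nat.le_induction with
  | base => intro _; exact ⟨hx, by simp⟩
  | succ t ht ih =>
    intro h2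
    obtain ⟨i1, i2⟩ := ih (by omega)
    have k1 := κ_mono hP (a := t1) (b := t) ht (by omega)
    have k2 := κ_mono hP (a := t) (b := t + 1) (by omega) (by omega)
    have k3 := κ_mono hP (a := t + 1) (b := t2) h2 (by omega)
    obtain ⟨s1, s2⟩ := U_step h4 hμ hR hX hP hE (t := t) (by omega) (by omega) (by omega) i1
    refine ⟨s1, ?_⟩
    have s3 := hih t (by omega) (by omega)
    have s4 : 2 ^ 14 * l * U μ R x (t + 1) + 2 ^ 14 * l * (N - κ t) =
        2 ^ 14 * l * U μ R x t + 2 ^ 14 * l * (β + o t + oo μ R κ x t) +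
          2 ^ 14 * l * (k t + sk μ κ x t) := by
      rw [← mul_add, s2]; ring
    have s5 : (t + 1 - t1) * (b * l + (R - 1 - t2)) =
        (t - t1) * (b * l + (R - 1 - t2)) + (b * l + (R - 1 - t2)) := by
      rw [show t + 1 - t1 = (t - t1) + 1 by omega]; ring
    rw [s5]
    have s6 : R - 1 - t2 ≤ R - 1 - t := by omega
    generalize (t - t1) * (b * l + (R - 1 - t2)) = B at *
    generalize b * l = bl at *
    generalize 2 ^ 14 * l * U μ R x (t + 1) = a1 at *
    generalize 2 ^ 14 * l * U μ R x t = a2 at *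
    generalize 2 ^ 14 * l * U μ R x t1 = a3 at *
    generalize 2 ^ 14 * l * (β + o t + oo μ R κ x t) = a4 at *
    generalize 2 ^ 14 * l * (k t + sk μ κ x t) = a5 at *
    generalize 2 ^ 14 * l * (N - κ t) = a7 at *
    omega

end

theorem goalZ9 (h4 : Pool.Agent.Helper43.Hw.GoalH4) : GoalZ9 := by
  intro μ R N K b l Lg β s y W L o k D S n κ x hμ hR hl hb hK hKb hX hP hE hsy hy hpau hih
    hsec hL
  have hyR := hE.1
  have hJs := hX.Js
  set w := R - 1 - y with hw
  have hw1 : 1 ≤ w := by omega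
  set F := (range y).filter (fun t => R - 1 - μ < t ∧ κ t < κ y ∧ 0 < x t ∧ 0 < U μ R x t ∧
    U μ R x t ≤ w) with hF
  have hge : ∀ t ∈ F, s ≤ t := by
    intro t ht
    rw [hF, mem_filter, mem_range] at ht
    by_contra hc
    have h1 := (hpau t (by omega) (by omega)).2
    have h2 := ht.2.2.2.2.1
    unfold U at h2
    rw [h1] at h2
    unfold na at h2
    omega
  have hmaps : ∀ t ∈ F, κ t ∈ Ico (κ s) (κ y) := by
    intro t ht
    have h0 := hge t ht
    rw [hF, mem_filter, mem_range] at ht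
    rw [mem_Ico]
    exact ⟨κ_mono hP h0 (by omega), ht.2.2.1⟩
  rw [card_eq_sum_card_fiberwise hmaps]
  set A := 2 ^ 14 * w with hA
  set G : ℕ → ℕ := fun j => 1 + (if j + 1 ≤ 6 * K then A / b else 42 * A / (j + 1)) with hG
  have hfib : ∀ c ∈ Ico (κ s) (κ y), (F.filter (fun t => κ t = c)).card ≤
      G (κ y - 1 - c) := by
    intro c hc
    rw [mem_Ico] at hc
    rcases (F.filter (fun t => κ t = c)).eq_empty_or_nonempty with he | hne
    · rw [he, card_empty]; exact Nat.zero_le _
    have m1 := min'_mem _ hne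
    have m2 := max'_mem _ hne
    set t1 := (F.filter (fun t => κ t = c)).min' hne with ht1
    set t2 := (F.filter (fun t => κ t = c)).max' hne with ht2
    have hs1 : s ≤ t1 := hge t1 (mem_filter.1 m1).1
    rw [hF, mem_filter, mem_filter, mem_range] at m1 m2
    have h12 : t1 ≤ t2 := min'_le_max' _ hne
    have hcard : (F.filter (fun t => κ t = c)).card ≤ t2 + 1 - t1 := by
      rw [← Nat.card_Icc]
      refine card_le_card fun t ht => ?_
      rw [mem_Icc]
      exact ⟨min'_le _ _ ht, le_max' _ _ ht⟩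
    set q := (F.filter (fun t => κ t = c)).card with hq
    have hgr := (growth h4 hμ hR hX hP hE hih (t1 := t1) (t2 := t2) (by omega) (by omega)
      (by omega) m1.1.2.2.2.1 t2 h12 le_rfl).2
    set X := R - 1 - t2 with hXX
    have hXw : w < X := by omega
    have e1 : (q - 1) * (b * l + X) ≤ (t2 - t1) * (b * l + X) :=
      Nat.mul_le_mul_right _ (by omega)
    have e2 : 2 ^ 14 * l * U μ R x t2 ≤ 2 ^ 14 * l * w := Nat.mul_le_mul_left _ m2.1.2.2.2.2.2
    have e4 : (q - 1) * (b * l + X) ≤ l * A := by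
      have e40 : 2 ^ 14 * l * w = l * A := by rw [hA]; ring
      rw [e40] at e2
      generalize (q - 1) * (b * l + X) = a1 at *
      generalize (t2 - t1) * (b * l + X) = a2 at *
      generalize 2 ^ 14 * l * U μ R x t2 = a3 at *
      generalize 2 ^ 14 * l * U μ R x t1 = a4 at *
      generalize l * A = a5 at *
      omega
    have e5 := hsec t2 (by omega) (by omega)
    rw [m2.2, ← hXX] at e5
    have hj1 : κ y - c = (κ y - 1 - c) + 1 := by omega
    rw [hj1] at e5
    rw [hG]
    simp only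
    set j := κ y - 1 - c with hj
    split_ifs with hjK
    · have e6 : l * ((q - 1) * b) ≤ l * A := by
        calc l * ((q - 1) * b) = (q - 1) * (b * l) := by ring
          _ ≤ (q - 1) * (b * l + X) := Nat.mul_le_mul_left _ (by omega)
          _ ≤ l * A := e4
      have e7 := Nat.le_of_mul_le_mul_left e6 (by omega)
      have e8 : q - 1 ≤ A / b := (Nat.le_div_iff_mul_le (by omega)).2 e7
      omega
    · have e6 : l * (j + 1) ≤ 42 * X := by
        have e61 : 6 * K + 1 ≤ j + 1 := by omega
        have e62 : l * (6 * K + 1) ≤ l * (j + 1) := Nat.mul_le_mul_left _ e61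
        have e63 : l * (6 * K + 1) = 2 * (3 * K * l) + l := by ring
        rw [e63] at e62
        generalize 3 * K * l = a1 at *
        generalize l * (j + 1) = a2 at *
        omega
      have e7 : l * ((q - 1) * (j + 1)) ≤ l * (42 * A) := by
        calc l * ((q - 1) * (j + 1)) = (q - 1) * (l * (j + 1)) := by ring
          _ ≤ (q - 1) * (42 * X) := Nat.mul_le_mul_left _ e6
          _ = 42 * ((q - 1) * X) := by ring
          _ ≤ 42 * ((q - 1) * (b * l + X)) :=
              Nat.mul_le_mul_left _ (Nat.mul_le_mul_left _ (by omega))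
          _ ≤ 42 * (l * A) := Nat.mul_le_mul_left _ e4
          _ = l * (42 * A) := by ring
      have e8 := Nat.le_of_mul_le_mul_left e7 (by omega)
      have e9 : q - 1 ≤ 42 * A / (j + 1) := (Nat.le_div_iff_mul_le (by omega)).2 e8
      omega
  refine (sum_le_sum hfib).trans ?_
  rw [sum_Ico_eq_sum_range]
  set m := κ y - κ s with hm
  have hrefl : ∑ i ∈ range m, G (κ y - 1 - (κ s + i)) = ∑ j ∈ range m, G j := by
    rw [← sum_range_reflect]
    refine sum_congr rfl fun i hi => ?_
    rw [mem_range] at hi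
    congr 1
    omega
  rw [hrefl, hG, sum_add_distrib, sum_const, card_range, smul_eq_mul, mul_one]
  have hsum : ∑ j ∈ range m, (if j + 1 ≤ 6 * K then A / b else 42 * A / (j + 1)) ≤
      48 * A * Lg := by
    have a1 : ∑ j ∈ range m, (if j + 1 ≤ 6 * K then A / b else 42 * A / (j + 1)) ≤
        ∑ j ∈ range m, (if j + 1 ≤ 6 * K then A / b else 0) +
          ∑ j ∈ range m, 42 * A / (j + 1) := by
      rw [← sum_add_distrib]
      refine sum_le_sum fun j _ => ?_
      split_ifs
      · exact Nat.le_add_right _ _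
      · rw [zero_add]
    have a2 : ∑ j ∈ range m, (if j + 1 ≤ 6 * K then A / b else 0) ≤ 6 * K * (A / b) := by
      rw [← sum_filter, sum_const, smul_eq_mul]
      refine Nat.mul_le_mul_right _ ?_
      calc ((range m).filter (fun j => j + 1 ≤ 6 * K)).card ≤ (range (6 * K)).card := by
            refine card_le_card fun j hj => ?_
            rw [mem_filter] at hj
            rw [mem_range]
            omega
        _ = 6 * K := card_range _
    have a3 : 6 * K * (A / b) ≤ 6 * A * Lg := by
      have a31 : b * (A / b) ≤ A := Nat.mul_div_le _ _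
      calc 6 * K * (A / b) ≤ 6 * (b * Lg) * (A / b) :=
            Nat.mul_le_mul_right _ (Nat.mul_le_mul_left _ hKb)
        _ = 6 * (b * (A / b)) * Lg := by ring
        _ ≤ 6 * A * Lg := Nat.mul_le_mul_right _ (Nat.mul_le_mul_left _ a31)
    have a4 := harm (42 * A) Lg m hL
    have a5 : 6 * A * Lg + 42 * A * Lg = 48 * A * Lg := by ring
    omega
  have hfin : 48 * A * Lg = 48 * 2 ^ 14 * w * Lg := by rw [hA]; ring
  rw [hfin] at hsum
  exact Nat.add_le_add_left hsum m

end Pool.Agent.Helper33.EW
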